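import Pool.Agent.TH677.EF.Sim

/-!
# Extending extended Frege proofs

Operations on `EFProof F A k L` (initial segments of extended Frege proofs of `A` with `k` uses of
the extension rule): adding Frege proofs, instances of derivations, a list of extension axioms,
and substituted copies of another extended Frege proof.
-/

set_option autoImplicit false

namespace Pool.Agent.TH677.PM

open Pool.Agent.H555R2.PF Pool.Agent.H555R2.PF.Fm Pool.Agent.TH677.EF

variable {F : List Rule} {A : Fm}

theorem ef_append {k : ℕ} {L : List Fm} (hL : EFProof F A k L) {D : List Fm} (hD : Fr F D) :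
    EFProof F A k (D ++ L) := by
  induction hD with
  | nil => exact hL
  | @rule D B hD hB ih =>
    exact EFProof.rule ih (hB.mono fun A hA => List.mem_append_left _ hA)

theorem ef_suffix {D : List Fm} : ∀ {L : List Fm} {k : ℕ}, EFProof F A k (L ++ D) →
    ∃ k' ≤ k, EFProof F A k' D := by
  intro L
  induction L with
  | nil => intro k h; exact ⟨k, le_rfl, h⟩
  | cons B L ih =>
    intro k h
    cases h with
    | rule h _ => exact ih h
    | ext h _ _ _ =>
      obtain ⟨k', h1, h2⟩ := ih h
      exact ⟨k', by omega, h2⟩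

theorem ef_deriv {k : ℕ} {L : List Fm} (hL : EFProof F A k L) {Γ₀ Lf : List Fm}
    (hd : Derivation F Γ₀ Lf) {σ : ℕ → Fm} {M : ℕ} (hM : 1 ≤ M) (hσ : ∀ n, (σ n).size ≤ M)
    (hΓ : ∀ C ∈ Γ₀, C.subst σ ∈ L) :
    ∃ D, EFProof F A k (D ++ L) ∧ (∀ C ∈ Lf, C.subst σ ∈ D ++ L) ∧ psize D ≤ psize Lf * M := by
  induction hd with
  | nil => exact ⟨[], hL, by simp, by simp [psize]⟩
  | @hyp Lf B hd hB ih =>
    obtain ⟨D, h1, h2, h3⟩ := ih
    refine ⟨D, h1, ?_, ?_⟩
    · intro C hC
      rcases List.mem_cons.1 hC with rfl | hC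
      · exact List.mem_append_right _ (hΓ _ hB)
      · exact h2 C hC
    · rw [psize_cons]
      nlinarith
  | @rule Lf B hd hB ih =>
    obtain ⟨D, h1, h2, h3⟩ := ih
    obtain ⟨r, hr, τ, e1, e2⟩ := hB
    refine ⟨B.subst σ :: D, EFProof.rule h1
      ⟨r, hr, fun n => (τ n).subst σ, by rw [e1, Fm.subst_subst], ?_⟩, ?_, ?_⟩
    · intro p hp
      rw [← Fm.subst_subst]
      exact h2 _ (e2 p hp)
    · intro C hC
      rcases List.mem_cons.1 hC with rfl | hC
      · simp
      · exact List.mem_cons_of_mem _ (h2 C hC)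
    · rw [psize_cons, psize_cons]
      have := Fm.size_subst_le (σ := σ) hM (A := B) (fun n _ => hσ n)
      nlinarith

theorem ef_trans (hF : IsFrege F) : ∃ c : ℕ, ∀ (A : Fm) (k : ℕ) (χ Y : ℕ → Fm) (M : ℕ), 1 ≤ M →
    ∀ (l : List ℕ), (∀ s ∈ l, (χ s).size ≤ M) → (∀ s ∈ l, (Y s).size ≤ M) →
    ∀ (L : List Fm), EFProof F A k L →
    (∀ s ∈ l, iff (var s) (χ s) ∈ L ∧ imp (imp (var s) (var s)) (iff (Y s) (χ s)) ∈ L) →
    ∃ D, EFProof F A k (D ++ L) ∧ (∀ s ∈ l, iff (var s) (Y s) ∈ D ++ L) ∧
      psize D ≤ l.length * (c * M) := by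
  obtain ⟨Lf, hLf⟩ := hF.2 [iff (var 0) (var 1),
    imp (imp (var 0) (var 0)) (iff (var 2) (var 1))] (iff (var 0) (var 2)) (by
      intro v h; simp [eval, iff] at h ⊢; tauto)
  refine ⟨psize (iff (var 0) (var 2) :: Lf), fun A k χ Y M hM l => ?_⟩
  induction l with
  | nil => intro _ _ L hL _; exact ⟨[], hL, by simp, by simp [psize]⟩
  | cons s l ih =>
    intro hχ hY L hL h
    obtain ⟨D, h1, h2, h3⟩ := ih (fun t ht => hχ t (List.mem_cons_of_mem _ ht))
      (fun t ht => hY t (List.mem_cons_of_mem _ ht)) L hL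
      fun t ht => h t (List.mem_cons_of_mem _ ht)
    obtain ⟨g1, g2⟩ := h s (by simp)
    obtain ⟨D', h4, h5, h6⟩ := ef_deriv h1 hLf (σ := asg [var s, χ s, Y s]) hM (asg_size hM (by
      intro X hX
      simp only [List.mem_cons, List.not_mem_nil, or_false] at hX
      rcases hX with rfl | rfl | rfl
      · simpa [size] using hM
      · exact hχ s (by simp)
      · exact hY s (by simp))) (by
      intro C hC
      apply List.mem_append_right
      simp only [List.mem_cons, List.not_mem_nil, or_false] at hC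
      rcases hC with rfl | rfl
      · simpa [subst, asg, iff] using g1
      · simpa [subst, asg, iff] using g2)
    have e1 : iff (var s) (Y s) ∈ D' ++ (D ++ L) := by
      have := h5 (iff (var 0) (var 2)) (by simp)
      simpa [subst, asg, iff] using this
    refine ⟨D' ++ D, by rwa [List.append_assoc], ?_, ?_⟩
    · intro t ht
      rw [List.append_assoc]
      rcases List.mem_cons.1 ht with rfl | ht
      · exact e1
      · exact List.mem_append_right _ (h2 t ht)
    · rw [psize_append, List.length_cons]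
      nlinarith

/-- the list of the new extension axioms -/
def extl (T : Finset ℕ) (χ : ℕ → Fm) : List (ℕ × Fm) → List Fm
  | [] => []
  | (q, _) :: E => if q ∈ T then extl T χ E else iff (var q) (χ q) :: extl T χ E

theorem keys_cons (q : ℕ) (ψ : Fm) (E : List (ℕ × Fm)) : keys ((q, ψ) :: E) = insert q (keys E) := by
  simp [keys]

theorem extl_mem {T : Finset ℕ} {χ : ℕ → Fm} {E : List (ℕ × Fm)} {C : Fm} (h : C ∈ extl T χ E) :
    ∃ q ∈ keys E, q ∉ T ∧ C = iff (var q) (χ q) := by
  induction E with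
  | nil => simp [extl] at h
  | cons p E ih =>
    obtain ⟨q, ψ⟩ := p
    simp only [extl] at h
    rw [keys_cons]
    split_ifs at h with hq
    · obtain ⟨u, h1, h2, h3⟩ := ih h
      exact ⟨u, Finset.mem_insert_of_mem h1, h2, h3⟩
    · rcases List.mem_cons.1 h with rfl | h
      · exact ⟨q, Finset.mem_insert_self _ _, hq, rfl⟩
      · obtain ⟨u, h1, h2, h3⟩ := ih h
        exact ⟨u, Finset.mem_insert_of_mem h1, h2, h3⟩

theorem mem_extl {T : Finset ℕ} {χ : ℕ → Fm} {E : List (ℕ × Fm)} : ∀ q ∈ keys E, q ∉ T →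
    iff (var q) (χ q) ∈ extl T χ E := by
  induction E with
  | nil => simp [keys]
  | cons p E ih =>
    obtain ⟨q, ψ⟩ := p
    intro u hu hT
    rw [keys_cons, Finset.mem_insert] at hu
    simp only [extl]
    split_ifs with hq
    · rcases hu with rfl | hu
      · exact absurd hq hT
      · exact ih u hu hT
    · rcases hu with rfl | hu
      · simp
      · exact List.mem_cons_of_mem _ (ih u hu hT)

theorem psize_extl {T : Finset ℕ} {χ : ℕ → Fm} {E : List (ℕ × Fm)} {M : ℕ}
    (h : ∀ q ∈ keys E, (χ q).size ≤ M) : psize (extl T χ E) ≤ E.length * (2 * M + 5) := by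
  induction E with
  | nil => simp [extl, psize]
  | cons p E ih =>
    obtain ⟨q, ψ⟩ := p
    have h1 := ih fun u hu => h u (by rw [keys_cons]; exact Finset.mem_insert_of_mem hu)
    have h2 := h q (by rw [keys_cons]; exact Finset.mem_insert_self _ _)
    simp only [extl, List.length_cons]
    split_ifs
    · nlinarith
    · rw [psize_cons]
      simp only [iff, size]
      nlinarith


theorem key_new {q : ℕ} {ψ : Fm} {E : List (ℕ × Fm)} (hw : WFE A ((q, ψ) :: E)) : q ∉ keys E := by
  intro h
  obtain ⟨ψ', h'⟩ := mem_keys.1 h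
  exact (hw.1.2.2 _ h').1 rfl

theorem ef_extl {T : Finset ℕ} {χ : ℕ → Fm} : ∀ {E : List (ℕ × Fm)}, WFE A E →
    (∀ u ∈ keys E, u ∉ T → ∀ v ∈ keys E, v ∉ T → rnk E u ≤ rnk E v → v ∉ (χ u).vars) →
    EFProof F A (keys E \ T).card (extl T χ E) := by
  intro E
  induction E with
  | nil => intro _ _; simpa [keys, extl] using (EFProof.nil : EFProof F A 0 [])
  | cons p E ih =>
    obtain ⟨q, ψ⟩ := p
    intro hw h
    have hq := key_new hw
    have hr : ∀ u ∈ keys E, rnk ((q, ψ) :: E) u = rnk E u := by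
      intro u hu
      have : u ≠ q := fun e => hq (e ▸ hu)
      simp [rnk, this]
    have hrq : rnk ((q, ψ) :: E) q = E.length + 1 := by simp [rnk]
    have h1 := ih hw.2 (by
      intro u hu huT v hv hvT huv
      exact h u (by rw [keys_cons]; exact Finset.mem_insert_of_mem hu) huT v
        (by rw [keys_cons]; exact Finset.mem_insert_of_mem hv) hvT (by rwa [hr u hu, hr v hv]))
    rw [keys_cons]
    simp only [extl]
    split_ifs with hT
    · rwa [Finset.insert_sdiff_of_mem _ hT]
    · rw [Finset.insert_sdiff_of_notMem _ hT, Finset.card_insert_of_notMem (by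
        simp [hq])]
      have hk : q ∈ keys ((q, ψ) :: E) := by rw [keys_cons]; exact Finset.mem_insert_self _ _
      refine EFProof.ext h1 (h q hk hT q hk hT le_rfl) ?_ hw.1.2.1
      intro C hC
      obtain ⟨u, hu, huT, rfl⟩ := extl_mem hC
      have huq : q ≠ u := fun e => hq (e ▸ hu)
      have h2 := h u (by rw [keys_cons]; exact Finset.mem_insert_of_mem hu) huT q hk hT (by
        rw [hr u hu, hrq]
        have := rnk_le E u
        omega)
      simp only [iff, vars, Finset.mem_union, Finset.mem_singleton, not_or]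
      exact ⟨⟨huq, h2⟩, h2, huq⟩

/-- substituting a solution into an extended Frege proof -/
theorem ef_sim {E : List (ℕ × Fm)} {L : List Fm} (h : EFP F A E L) {G : ℕ → Fm} {M : ℕ}
    (hM : 1 ≤ M) (hG : ∀ n, (G n).size ≤ M) {k : ℕ} {L1 : List Fm} (hL1 : EFProof F A k L1)
    (hΓ : ∀ p ∈ E, iff (G p.1) (p.2.subst G) ∈ L1) :
    ∃ D, EFProof F A k (D ++ L1) ∧ (∀ B ∈ L, B.subst G ∈ D ++ L1) ∧ psize D ≤ psize L * M := by
  induction h with
  | nil => exact ⟨[], hL1, by simp, by simp [psize]⟩
  | @rule E L B h hB ih =>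
    obtain ⟨D, h1, h2, h3⟩ := ih hΓ
    obtain ⟨r, hr, τ, e1, e2⟩ := hB
    refine ⟨B.subst G :: D, EFProof.rule h1
      ⟨r, hr, fun n => (τ n).subst G, by rw [e1, Fm.subst_subst], ?_⟩, ?_, ?_⟩
    · intro p hp
      rw [← Fm.subst_subst]
      exact h2 _ (e2 p hp)
    · intro C hC
      rcases List.mem_cons.1 hC with rfl | hC
      · simp
      · exact List.mem_cons_of_mem _ (h2 C hC)
    · rw [psize_cons, psize_cons]
      have := Fm.size_subst_le (σ := G) hM (A := B) (fun n _ => hG n)
      nlinarith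
  | @ext E L q ψ h a1 a2 a3 ih =>
    obtain ⟨D, h1, h2, h3⟩ := ih fun p hp => hΓ p (List.mem_cons_of_mem _ hp)
    refine ⟨D, h1, ?_, ?_⟩
    · intro C hC
      rcases List.mem_cons.1 hC with rfl | hC
      · have := hΓ (q, ψ) (by simp)
        exact List.mem_append_right _ (by simpa [iff, subst] using this)
      · exact h2 C hC
    · rw [psize_cons, add_mul]
      omega

end Pool.Agent.TH677.PM
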