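import Pool.Agent.TH677.PM.EFx
import Pool.Agent.TH677.EF.Tree

/-!
# Partial elimination of extension variables

If the set `T` of extension variables has decomposition depth at most `d` (the other extension
variables being treated as parameters), the variables of `T` can be eliminated from an extended
Frege proof; the other extension axioms remain extension axioms.
-/

set_option autoImplicit false

namespace Pool.Agent.TH677.PM

open Pool.Agent.H555R2.PF Pool.Agent.H555R2.PF.Fm Pool.Agent.TH677.EF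

variable {F : List Rule} {A : Fm}

theorem mem_vars_subst {σ : ℕ → Fm} {m : ℕ} : ∀ {B : Fm}, m ∈ (B.subst σ).vars →
    ∃ n ∈ B.vars, m ∈ (σ n).vars := by
  intro B
  induction B with
  | var n => intro h; exact ⟨n, by simp [vars], h⟩
  | neg B ih =>
    intro h
    simpa [vars] using ih h
  | and B C iB iC =>
    intro h
    simp only [subst, vars, Finset.mem_union] at h
    rcases h with h | h
    · obtain ⟨n, h1, h2⟩ := iB h
      exact ⟨n, by simp [vars, h1], h2⟩
    · obtain ⟨n, h1, h2⟩ := iC h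
      exact ⟨n, by simp [vars, h1], h2⟩
  | or B C iB iC =>
    intro h
    simp only [subst, vars, Finset.mem_union] at h
    rcases h with h | h
    · obtain ⟨n, h1, h2⟩ := iB h
      exact ⟨n, by simp [vars, h1], h2⟩
    · obtain ⟨n, h1, h2⟩ := iC h
      exact ⟨n, by simp [vars, h1], h2⟩
  | imp B C iB iC =>
    intro h
    simp only [subst, vars, Finset.mem_union] at h
    rcases h with h | h
    · obtain ⟨n, h1, h2⟩ := iB h
      exact ⟨n, by simp [vars, h1], h2⟩
    · obtain ⟨n, h1, h2⟩ := iC h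
      exact ⟨n, by simp [vars, h1], h2⟩

/-- replace the variables of `S` of rank at least `r` by a constant -/
def kill (x : ℕ) (S : Finset ℕ) (rk : ℕ → ℕ) (r : ℕ) : ℕ → Fm := fun n =>
  if n ∈ S ∧ r ≤ rk n then imp (var x) (var x) else var n

theorem kill_size (x : ℕ) (S : Finset ℕ) (rk : ℕ → ℕ) (r n : ℕ) :
    (kill x S rk r n).size ≤ 3 := by
  unfold kill
  split_ifs <;> simp [size]

theorem kill_vars {x : ℕ} {S : Finset ℕ} {rk : ℕ → ℕ} {r n m : ℕ} (hx : x ∉ S)
    (h : m ∈ (kill x S rk r n).vars) : ¬ (m ∈ S ∧ r ≤ rk m) := by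
  unfold kill at h
  split_ifs at h with h1
  · simp only [vars, Finset.union_self, Finset.mem_singleton] at h
    rw [h]
    exact fun h2 => hx h2.1
  · simp only [vars, Finset.mem_singleton] at h
    rwa [h]

/-- the equivalence between the two definitions of a remaining extension variable -/
theorem one_key (hF : IsFrege F) : ∃ c : ℕ, ∀ (φ : ℕ → Fm) (rk : ℕ → ℕ) (X T : Finset ℕ)
    (x b g K0 s : ℕ) (G : ℕ → Fm), 1 ≤ b → 1 ≤ g → (∀ u ∈ X, (φ u).size ≤ b) →
    (∀ u ∈ X, ∀ v ∈ X, v ∈ (φ u).vars → rk v < rk u) → T ⊆ X → s ∈ X → s ∉ T →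
    (∀ n, n ∉ T → G n = var n) → (∀ n, (G n).size ≤ g) →
    Ca F ∅ (T.toList.map (eqn φ G)) K0 →
    Ca F ∅ [imp (imp (var s) (var s)) (iff ((φ s).subst G)
      ((φ s).subst fun n => (G n).subst (kill x (X \ T) rk (rk s))))]
      (4 * K0 + (T.card + 1) * (c * (b * (b * g)))) := by
  classical
  obtain ⟨c1, h1⟩ := indep hF
  obtain ⟨c2, h2⟩ := repl' hF
  obtain ⟨c3, h3⟩ := s1 hF
  refine ⟨6 * (c1 + c2 + c3), fun φ rk X T x b g K0 s G hb hg hφ hrk hTX hs hsT g1 g2 g3 => ?_⟩
  set r := rk s with hr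
  set κ : ℕ → Fm := kill x (X \ T) rk r with hκ
  set Tr := T.filter (fun u => rk u < r) with hTr
  set G1 : ℕ → Fm := fun n => if n ∈ Tr then G n else var n with hG1
  set G0 : ℕ → Fm := fun n => if n ∈ Tr then (G n).subst κ else var n with hG0
  have mTr : ∀ {u}, u ∈ Tr ↔ u ∈ T ∧ rk u < r := by
    intro u; rw [hTr, Finset.mem_filter]
  -- for a key `u` of rank at most `r`, the substitutions agree on the definition of `u`
  have agree1 : ∀ u ∈ X, rk u ≤ r → (φ u).subst G1 = (φ u).subst G := by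
    intro u hu hur
    refine subst_congr fun v hv => ?_
    by_cases hvT : v ∈ T
    · have : v ∈ Tr := mTr.2 ⟨hvT, lt_of_lt_of_le (hrk u hu v (hTX hvT) hv) hur⟩
      simp only [hG1, this, if_true]
    · have : v ∉ Tr := fun h => hvT (mTr.1 h).1
      simp only [hG1, this, if_false, g1 v hvT]
  have agree0 : ∀ u ∈ X, rk u ≤ r → (φ u).subst G0 = (φ u).subst fun n => (G n).subst κ := by
    intro u hu hur
    refine subst_congr fun v hv => ?_
    by_cases hvT : v ∈ T
    · have : v ∈ Tr := mTr.2 ⟨hvT, lt_of_lt_of_le (hrk u hu v (hTX hvT) hv) hur⟩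
      simp only [hG0, this, if_true]
    · have h4 : v ∉ Tr := fun h => hvT (mTr.1 h).1
      have h5 : ¬ (v ∈ X \ T ∧ r ≤ rk v) := by
        rintro ⟨h6, h7⟩
        have := hrk u hu v (Finset.mem_sdiff.1 h6).1 hv
        omega
      simp only [hG0, h4, if_false, g1 v hvT, subst, hκ, kill, h5]
  have sκ : ∀ n, (κ n).size ≤ 3 := fun n => kill_size _ _ _ _ _
  have sG1 : ∀ n, (G1 n).size ≤ 3 * g := by
    intro n
    simp only [hG1]
    split_ifs
    · have := g2 n; omega
    · simp only [size]; omega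
  have sG0 : ∀ n, (G0 n).size ≤ 3 * g := by
    intro n
    simp only [hG0]
    split_ifs
    · have := subst_size (A := G n) (σ := κ) (b := g) (M := 3) (by norm_num) (g2 n) sκ
      omega
    · simp only [size]; omega
  -- the equations
  have e1 := g3.append (g3.inst (σ := κ) (M := 3) (by norm_num) sκ)
  obtain ⟨Γ, hΓ⟩ : ∃ Γ : Set Fm, Γ = ∅ ∪ {B | B ∈ T.toList.map (eqn φ G) ++
    (T.toList.map (eqn φ G)).map (Fm.subst κ)} := ⟨_, rfl⟩
  have q1 : ∀ u ∈ Tr, eqn φ G1 u ∈ Γ := by
    intro u hu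
    have hu' := mTr.1 hu
    have e : eqn φ G1 u = eqn φ G u := by
      simp only [eqn, agree1 u (hTX hu'.1) hu'.2.le]
      simp only [hG1, hu, if_true]
    rw [e, hΓ]
    right
    exact List.mem_append_left _ (List.mem_map.2 ⟨u, Finset.mem_toList.2 hu'.1, rfl⟩)
  have q0 : ∀ u ∈ Tr, eqn φ G0 u ∈ Γ := by
    intro u hu
    have hu' := mTr.1 hu
    have e : eqn φ G0 u = (eqn φ G u).subst κ := by
      rw [eqn_subst]
      simp only [eqn, agree0 u (hTX hu'.1) hu'.2.le]
      simp only [hG0, hu, if_true]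
    rw [e, hΓ]
    right
    refine List.mem_append_right _ (List.mem_map.2 ⟨_, List.mem_map.2
      ⟨u, Finset.mem_toList.2 hu'.1, rfl⟩, rfl⟩)
  have hbg : 1 ≤ b * g := Nat.one_le_iff_ne_zero.2 (by positivity)
  have f1 := h1 φ rk Tr s b (3 * g) (3 * (b * g)) G1 G0 hb (by omega) (by
      rw [Nat.mul_left_comm]) (by omega)
    (fun u hu => hφ u (hTX (mTr.1 hu).1))
    (fun u hu v hv h => hrk u (hTX (mTr.1 hu).1) v (hTX (mTr.1 hv).1) h)
    (fun u hu h => hrk u (hTX (mTr.1 hu).1) s hs h) sG1 sG0 (by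
      intro n hn _
      simp only [hG1, hG0, hn, if_false, and_self]) Γ q1 q0 Tr (Finset.Subset.refl _)
    (fun u hu => (mTr.1 hu).2) (fun u _ v _ hv => hv)
  obtain ⟨H, hH⟩ : ∃ H : Fm, H = imp (var s) (var s) := ⟨_, rfl⟩
  have hHs : H.size ≤ 3 * (b * g) := by rw [hH]; simp only [size]; omega
  have sub1 : ((φ s).subst G1).size ≤ 3 * (b * g) := by
    have := subst_size (A := φ s) (σ := G1) (b := b) (M := 3 * g) (by omega) (hφ s hs) sG1
    rwa [Nat.mul_left_comm] at this
  have sub0 : ((φ s).subst G0).size ≤ 3 * (b * g) := by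
    have := subst_size (A := φ s) (σ := G0) (b := b) (M := 3 * g) (by omega) (hφ s hs) sG0
    rwa [Nat.mul_left_comm] at this
  have f2 := h2 H (φ s) G1 G0 (3 * (b * g)) (c3 * (3 * (b * g))) hHs sub1 sub0
    (Γ ∪ {B | B ∈ Tr.toList.map fun u => imp (imp (var s) (var s)) (iff (G1 u) (G0 u))}) (by
      intro n _
      by_cases hn : n ∈ Tr
      · refine (Ca.hyp ?_).le (Nat.zero_le _)
        right
        rw [hH]
        exact List.mem_map.2 ⟨n, Finset.mem_toList.2 hn, rfl⟩
      · have e1 : G1 n = var n := by simp only [hG1, hn, if_false]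
        have e0 : G0 n = var n := by simp only [hG0, hn, if_false]
        rw [e1, e0]
        exact h3 H (var n) _ hHs (by simp only [size]; omega) _)
  rw [agree1 s hs le_rfl, agree0 s hs le_rfl, hH] at f2
  rw [hΓ] at f1 f2
  refine (e1.cut (f1.cut f2)).le ?_
  have k1 : Tr.card ≤ T.card := Finset.card_filter_le _ _
  have k2 : (φ s).size ≤ b := hφ s hs
  calc K0 + K0 * 3 + (Tr.card * (c1 * (b * (3 * (b * g)))) +
        (φ s).size * (c3 * (3 * (b * g)) + c2 * (3 * (b * g))))
      ≤ K0 + K0 * 3 + (T.card * (c1 * (b * (3 * (b * g)))) +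
        b * (c3 * (3 * (b * g)) + c2 * (3 * (b * g)))) := by gcongr
    _ = 4 * K0 + (T.card * (3 * c1) + (3 * (c2 + c3))) * (b * (b * g)) := by ring
    _ ≤ 4 * K0 + ((T.card + 1) * (6 * (c1 + c2 + c3))) * (b * (b * g)) := by
        gcongr
        nlinarith [Nat.zero_le (T.card * c2), Nat.zero_le (T.card * c3), Nat.zero_le c1,
          Nat.zero_le (T.card * c1)]
    _ = _ := by ring

end Pool.Agent.TH677.PM
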