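import Pool.Agent.TH677.EF.Tree

/-!
# Graphs with sublinear separators: decomposition depth and divisions
-/

set_option autoImplicit false

namespace Pool.Agent.TH677.PM

open Pool.Agent.H555R2.PF Pool.Agent.H555R2.PF.Fm Pool.Agent.TH677.EF

/-- Every set `Y ⊆ X` of extension variables has a balanced separator of size at most
`c |Y| ^ α` in the graph in which a variable is joined to the variables in its definition. -/
def Seps (φ : ℕ → Fm) (X : Finset ℕ) (α c : ℝ) : Prop :=
  ∀ Y ⊆ X, ∃ S U V : Finset ℕ, Y = S ∪ (U ∪ V) ∧ Disjoint S (U ∪ V) ∧ Disjoint U V ∧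
    (∀ u ∈ U, ∀ v ∈ V, v ∉ (φ u).vars ∧ u ∉ (φ v).vars) ∧
    3 * U.card ≤ 2 * Y.card ∧ 3 * V.card ≤ 2 * Y.card ∧ (S.card : ℝ) ≤ c * (Y.card : ℝ) ^ α

variable {φ : ℕ → Fm} {X : Finset ℕ} {α c : ℝ}

theorem Seps.depth (h : Seps φ X α c) (hα : 0 < α) (hc : 0 ≤ c) : ∀ (n : ℕ) (Y : Finset ℕ),
    Y ⊆ X → Y.card = n →
    ∃ d : ℕ, (d : ℝ) ≤ c / (1 - (2 / 3) ^ α) * (Y.card : ℝ) ^ α ∧ Dec φ Y d := by
  classical
  intro n
  induction n using Nat.strong_induction_on with
  | _ n ih =>
    intro Y hY hn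
    rcases Nat.eq_zero_or_pos n with h0 | h0
    · subst h0
      rw [Finset.card_eq_zero] at hn
      subst hn
      exact ⟨0, by simp [Real.zero_rpow hα.ne'], Dec.empty 0⟩
    obtain ⟨S, U, V, e, d1, d2, he, hU, hV, hS⟩ := h Y hY
    have hUY : U ⊆ Y := by rw [e]; intro u hu; simp [hu]
    have hVY : V ⊆ Y := by rw [e]; intro u hu; simp [hu]
    obtain ⟨dU, a1, a2⟩ := ih U.card (by omega) U (hUY.trans hY) rfl
    obtain ⟨dV, b1, b2⟩ := ih V.card (by omega) V (hVY.trans hY) rfl
    have ht : ((2 : ℝ) / 3) ^ α < 1 := Real.rpow_lt_one (by norm_num) (by norm_num) hα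
    have hK : 0 ≤ c / (1 - (2 / 3) ^ α) := div_nonneg hc (by linarith)
    have key : ∀ W : Finset ℕ, 3 * W.card ≤ 2 * Y.card →
        c / (1 - (2 / 3) ^ α) * (W.card : ℝ) ^ α ≤
          c / (1 - (2 / 3) ^ α) * ((2 / 3) ^ α * (Y.card : ℝ) ^ α) := by
      intro W hW
      refine mul_le_mul_of_nonneg_left ?_ hK
      rw [← Real.mul_rpow (by norm_num) (Nat.cast_nonneg _)]
      refine Real.rpow_le_rpow (Nat.cast_nonneg _) ?_ hα.le
      have : (3 : ℝ) * W.card ≤ 2 * Y.card := by exact_mod_cast hW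
      linarith
    have h1 := Dec.split d2 (a2.mono (le_max_left dU dV)) (b2.mono (le_max_right dU dV)) he
    have h2 := h1.guesses S (by
      exact d1.symm)
    refine ⟨max dU dV + S.card, ?_, ?_⟩
    · have h3 : ((max dU dV : ℕ) : ℝ) ≤ c / (1 - (2 / 3) ^ α) * ((2 / 3) ^ α * (Y.card : ℝ) ^ α) := by
        rcases max_choice dU dV with h | h <;> rw [h]
        · exact a1.trans (key U hU)
        · exact b1.trans (key V hV)
      push_cast at h3 ⊢
      have h4 : c / (1 - (2 / 3) ^ α) * ((2 / 3) ^ α * (Y.card : ℝ) ^ α) + c * (Y.card : ℝ) ^ α =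
          c / (1 - (2 / 3) ^ α) * (Y.card : ℝ) ^ α := by
        have : (1 : ℝ) - (2 / 3) ^ α ≠ 0 := by linarith
        field_simp
        ring
      linarith
    · rw [e, Finset.union_comm S]
      exact h2

/-- Division: deleting `O(c |Y| r ^ (α - 1))` variables leaves decomposition depth `O(c r ^ α)`. -/
theorem Seps.division (h : Seps φ X α c) (hα : 0 < α) (hα1 : α < 1) (hc : 0 ≤ c) (r : ℝ)
    (hr : 1 ≤ r) (Q : ℝ) (hQ : Q = c / ((2 / 3) ^ (α - 1) - 1)) :
    ∀ (n : ℕ) (Y : Finset ℕ), Y ⊆ X → Y.card = n → ∃ S ⊆ Y,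
      (S.card : ℝ) ≤ Y.card * (Q * (2 * r / 3) ^ (α - 1) -
        Q * (max (Y.card : ℝ) (2 * r / 3)) ^ (α - 1)) ∧
      Dec φ (Y \ S) ⌊c / (1 - (2 / 3) ^ α) * r ^ α⌋₊ := by
  classical
  have hr0 : (0 : ℝ) < 2 * r / 3 := by linarith
  have ht1 : (1 : ℝ) < (2 / 3) ^ (α - 1) :=
    Real.one_lt_rpow_of_pos_of_lt_one_of_neg (by norm_num) (by norm_num) (by linarith)
  have hQ0 : 0 ≤ Q := by rw [hQ]; exact div_nonneg hc (by linarith)
  have ht : ((2 : ℝ) / 3) ^ α < 1 := Real.rpow_lt_one (by norm_num) (by norm_num) hα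
  have hK : 0 ≤ c / (1 - (2 / 3) ^ α) := div_nonneg hc (by linarith)
  -- monotonicity of the potential
  have mono : ∀ x y : ℝ, x ≤ y → (max y (2 * r / 3)) ^ (α - 1) ≤ (max x (2 * r / 3)) ^ (α - 1) := by
    intro x y hxy
    exact Real.rpow_le_rpow_of_nonpos (lt_of_lt_of_le hr0 (le_max_right _ _))
      (max_le_max hxy le_rfl) (by linarith)
  have nonneg : ∀ x : ℝ, 0 ≤ Q * (2 * r / 3) ^ (α - 1) - Q * (max x (2 * r / 3)) ^ (α - 1) := by
    intro x
    have := Real.rpow_le_rpow_of_nonpos hr0 (le_max_right x (2 * r / 3)) (by linarith : α - 1 ≤ 0)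
    nlinarith
  intro n
  induction n using Nat.strong_induction_on with
  | _ n ih =>
    intro Y hY hn
    by_cases hYr : (Y.card : ℝ) ≤ r
    · obtain ⟨d, h1, h2⟩ := h.depth hα hc Y.card Y hY rfl
      refine ⟨∅, Finset.empty_subset _, ?_, ?_⟩
      · simp only [Finset.card_empty, Nat.cast_zero]
        exact mul_nonneg (Nat.cast_nonneg _) (nonneg _)
      · rw [Finset.sdiff_empty]
        refine h2.mono (Nat.le_floor (h1.trans ?_))
        exact mul_le_mul_of_nonneg_left (Real.rpow_le_rpow (Nat.cast_nonneg _) hYr hα.le) hK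
    · have hYr := not_le.1 hYr
      have hY0 : 0 < n := by
        rcases Nat.eq_zero_or_pos n with h0 | h0
        · rw [hn, h0] at hYr
          push_cast at hYr
          linarith
        · exact h0
      obtain ⟨S, U, V, e, d1, d2, he, hU, hV, hS⟩ := h Y hY
      have hUY : U ⊆ Y := by rw [e]; intro u hu; simp [hu]
      have hVY : V ⊆ Y := by rw [e]; intro u hu; simp [hu]
      have hSY : S ⊆ Y := by rw [e]; intro u hu; simp [hu]
      obtain ⟨SU, a1, a2, a3⟩ := ih U.card (by omega) U (hUY.trans hY) rfl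
      obtain ⟨SV, b1, b2, b3⟩ := ih V.card (by omega) V (hVY.trans hY) rfl
      have hcard : Y.card = S.card + (U.card + V.card) := by
        rw [e, Finset.card_union_of_disjoint d1, Finset.card_union_of_disjoint d2]
      refine ⟨S ∪ (SU ∪ SV), ?_, ?_, ?_⟩
      · intro u hu
        simp only [Finset.mem_union] at hu
        rcases hu with hu | hu | hu
        exacts [hSY hu, hUY (a1 hu), hVY (b1 hu)]
      · have k1 : ((S ∪ (SU ∪ SV)).card : ℝ) ≤ S.card + (SU.card + SV.card) := by
          have := (Finset.card_union_le S (SU ∪ SV)).trans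
            (Nat.add_le_add_left (Finset.card_union_le SU SV) _)
          exact_mod_cast this
        obtain ⟨y, hy⟩ : ∃ y : ℝ, y = (Y.card : ℝ) := ⟨_, rfl⟩
        rw [← hy] at hYr hS ⊢
        have hy1 : 2 * r / 3 ≤ 2 * y / 3 := by linarith
        have hypos : 0 < y := by linarith
        have g1 : ∀ W : Finset ℕ, 3 * W.card ≤ 2 * Y.card →
            (W.card : ℝ) * (Q * (2 * r / 3) ^ (α - 1) -
              Q * (max (W.card : ℝ) (2 * r / 3)) ^ (α - 1)) ≤
            (W.card : ℝ) * (Q * (2 * r / 3) ^ (α - 1) - Q * (2 * y / 3) ^ (α - 1)) := by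
          intro W hW
          have hW' : (W.card : ℝ) ≤ 2 * y / 3 := by
            have : (3 : ℝ) * W.card ≤ 2 * Y.card := by exact_mod_cast hW
            rw [hy]; linarith
          have := mono _ _ hW'
          rw [max_eq_left hy1] at this
          refine mul_le_mul_of_nonneg_left ?_ (Nat.cast_nonneg _)
          nlinarith
        have g2 := g1 U hU
        have g3 := g1 V hV
        have g4 : (U.card : ℝ) + V.card ≤ y := by
          rw [hy, hcard]; push_cast
          have : (0 : ℝ) ≤ S.card := Nat.cast_nonneg _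
          linarith
        have g5 : 0 ≤ Q * (2 * r / 3) ^ (α - 1) - Q * (2 * y / 3) ^ (α - 1) := by
          have := nonneg (2 * y / 3)
          rwa [max_eq_left hy1] at this
        have g6 : max y (2 * r / 3) = y := max_eq_left (by linarith)
        rw [g6]
        have g7 : (2 * y / 3) ^ (α - 1) = (2 / 3) ^ (α - 1) * y ^ (α - 1) := by
          rw [← Real.mul_rpow (by norm_num) hypos.le]
          congr 1; ring
        have g8 : y * y ^ (α - 1) = y ^ α := by
          rw [mul_comm, ← Real.rpow_add_one hypos.ne']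
          congr 1; ring
        have g9 : c * y ^ α = y * (Q * (2 * y / 3) ^ (α - 1) - Q * y ^ (α - 1)) := by
          rw [g7]
          have h5 : (2 / 3 : ℝ) ^ (α - 1) - 1 ≠ 0 := by linarith
          calc c * y ^ α = Q * ((2 / 3) ^ (α - 1) - 1) * (y * y ^ (α - 1)) := by
                rw [g8, hQ]; field_simp
            _ = _ := by ring
        nlinarith [mul_le_mul_of_nonneg_right g4 g5]
      · have h5 : Y \ (S ∪ (SU ∪ SV)) = (U \ SU) ∪ (V \ SV) := by
          ext u
          rw [e]
          simp only [Finset.mem_sdiff, Finset.mem_union, not_or]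
          constructor
          · rintro ⟨h1 | h1 | h1, h2, h3, h4⟩
            · exact absurd h1 h2
            · exact Or.inl ⟨h1, h3⟩
            · exact Or.inr ⟨h1, h4⟩
          · rintro (⟨h1, h2⟩ | ⟨h1, h2⟩)
            · refine ⟨Or.inr (Or.inl h1), ?_, h2, ?_⟩
              · exact fun h3 => Finset.disjoint_left.1 d1 h3 (Finset.mem_union_left _ h1)
              · exact fun h3 => Finset.disjoint_left.1 d2 h1 (b1 h3)
            · refine ⟨Or.inr (Or.inr h1), ?_, ?_, h2⟩
              · exact fun h3 => Finset.disjoint_left.1 d1 h3 (Finset.mem_union_right _ h1)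
              · exact fun h3 => Finset.disjoint_left.1 d2 (a1 h3) h1
        rw [h5]
        refine Dec.split ?_ a3 b3 ?_
        · exact Finset.disjoint_of_subset_left Finset.sdiff_subset
            (Finset.disjoint_of_subset_right Finset.sdiff_subset d2)
        · intro u hu v hv
          exact he u (Finset.mem_sdiff.1 hu).1 v (Finset.mem_sdiff.1 hv).1

end Pool.Agent.TH677.PM
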