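import Pool.Agent.TH677.PM.Main
import Pool.Agent.TH677.PM.Sep
import Pool.Agent.H586P.Final

/-! # Simulation in Frege + permutation -/

set_option autoImplicit false

namespace Pool.Agent.TH677.PM

open Pool.Agent.H555R2.PF Pool.Agent.H555R2.PF.Fm Pool.Agent.TH677.EF

variable {F : List Rule}

theorem perm_sim (hF : IsFrege F) : ∃ C : ℕ, ∀ (A : Fm) (E : List (ℕ × Fm)) (L : List Fm),
    EFP F A E (A :: L) → ∀ (T : Finset ℕ) (b d : ℕ), (∀ p ∈ E, p.2.size ≤ b) → T ⊆ keys E →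
    Dec (dfn E) T d → ∃ L' : List Fm, PermProof F (A :: L') ∧
      psize (A :: L') ≤ (psize (A :: L) * (b + 2) ^ (d + 1)) ^ C *
        2 ^ (C * Nat.sqrt ((keys E \ T).card * Nat.log 2 (A.vars.card + 2))) := by
  obtain ⟨C1, h1⟩ := elim hF
  obtain ⟨C2, h2⟩ := Pool.Agent.H586P.final F hF
  refine ⟨(3 * (C1 + 1) + 2) * C2, fun A E L h T b d hb hT hd => ?_⟩
  obtain ⟨k, L1, k1, k2, k3⟩ := h1 A E L h T b d hb hT hd
  obtain ⟨-, ⟨L', g1, g2⟩, -⟩ := h2 A k L1 k2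
  refine ⟨L', g1, g2.trans ?_⟩
  obtain ⟨s, hs⟩ : ∃ s, s = psize (A :: L) := ⟨_, rfl⟩
  rw [← hs] at k3 ⊢
  have hs1 : 1 ≤ s := by
    rw [hs, psize_cons]
    have := size_pos A
    omega
  have e1 : C1 ≤ (b + 2) ^ C1 :=
    (Nat.lt_pow_self (by omega : 1 < b + 2)).le
  have e2 : (C1 * (b + 1)) ^ (d + 3) ≤ ((b + 2) ^ (d + 1)) ^ (3 * (C1 + 1)) := by
    calc (C1 * (b + 1)) ^ (d + 3) ≤ ((b + 2) ^ C1 * (b + 2)) ^ (d + 3) := by
          gcongr
          omega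
      _ = (b + 2) ^ ((C1 + 1) * (d + 3)) := by rw [← pow_succ, ← pow_mul]
      _ ≤ (b + 2) ^ ((d + 1) * (3 * (C1 + 1))) := by
          apply Nat.pow_le_pow_right (by omega)
          nlinarith [Nat.zero_le (C1 * d)]
      _ = _ := by rw [pow_mul]
  have e3 : 1 ≤ (b + 2) ^ (d + 1) := Nat.one_le_pow _ _ (by omega)
  have e4 : psize (A :: L1) ≤ (s * (b + 2) ^ (d + 1)) ^ (3 * (C1 + 1) + 2) := by
    calc psize (A :: L1) ≤ s ^ 2 * ((b + 2) ^ (d + 1)) ^ (3 * (C1 + 1)) :=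
          k3.trans (Nat.mul_le_mul_left _ e2)
      _ ≤ s ^ (3 * (C1 + 1) + 2) * ((b + 2) ^ (d + 1)) ^ (3 * (C1 + 1) + 2) :=
          Nat.mul_le_mul (Nat.pow_le_pow_right hs1 (by omega))
            (Nat.pow_le_pow_right e3 (by omega))
      _ = _ := by rw [mul_pow]
  refine Nat.mul_le_mul ?_ (Nat.pow_le_pow_right (by norm_num) (Nat.mul_le_mul ?_
    (Nat.sqrt_le_sqrt (Nat.mul_le_mul_right _ k1))))
  · calc psize (A :: L1) ^ C2 ≤ ((s * (b + 2) ^ (d + 1)) ^ (3 * (C1 + 1) + 2)) ^ C2 :=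
          Nat.pow_le_pow_left e4 _
      _ = _ := by rw [pow_mul]
  · exact Nat.le_mul_of_pos_left _ (by omega)

theorem perm_seps (hF : IsFrege F) (α : ℝ) (hα : 0 < α) (hα1 : α < 1) : ∃ C : ℕ,
    ∀ (A : Fm) (E : List (ℕ × Fm)) (L : List Fm), EFP F A E (A :: L) →
    ∀ (b : ℕ) (c : ℝ), (∀ p ∈ E, p.2.size ≤ b) → 1 ≤ c → Seps (dfn E) (keys E) α c →
    ∃ L' : List Fm, PermProof F (A :: L') ∧ (psize (A :: L') : ℝ) ≤
      ((psize (A :: L) : ℝ) * ((b : ℝ) + 2) ^ (1 + c * ((keys E).card : ℝ) ^ (α / (1 + α))) *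
        2 ^ (c * ((keys E).card : ℝ) ^ (α / (1 + α)) *
          √(Real.logb 2 ((A.vars.card : ℝ) + 2)))) ^ C := by
  classical
  obtain ⟨C1, h1⟩ := perm_sim hF
  have ht1 : (1 : ℝ) < (2 / 3) ^ (α - 1) :=
    Real.one_lt_rpow_of_pos_of_lt_one_of_neg (by norm_num) (by norm_num) (by linarith)
  have ht : ((2 : ℝ) / 3) ^ α < 1 := Real.rpow_lt_one (by norm_num) (by norm_num) hα
  have htp : 0 < ((2 : ℝ) / 3) ^ α := Real.rpow_pos_of_pos (by norm_num) _
  obtain ⟨K0, hK0⟩ : ∃ K0 : ℝ, K0 = 1 / (1 - (2 / 3) ^ α) := ⟨_, rfl⟩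
  obtain ⟨P, hP⟩ : ∃ P : ℝ, P = (2 / 3) ^ (α - 1) / ((2 / 3) ^ (α - 1) - 1) := ⟨_, rfl⟩
  have hK1 : 1 ≤ K0 := by rw [hK0, le_div_iff₀ (by linarith)]; linarith
  have hP1 : 1 ≤ P := by rw [hP, le_div_iff₀ (by linarith)]; linarith
  obtain ⟨N, hN⟩ := exists_nat_ge (max K0 P)
  have hNK : K0 ≤ N := (le_max_left _ _).trans hN
  have hNP : P ≤ N := (le_max_right _ _).trans hN
  have hN1 : (1 : ℝ) ≤ N := hK1.trans hNK
  refine ⟨N * C1, fun A E L h b c hb hc hsep => ?_⟩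
  obtain ⟨m, hm⟩ : ∃ m : ℝ, m = ((keys E).card : ℝ) := ⟨_, rfl⟩
  obtain ⟨y, hy⟩ : ∃ y : ℝ, y = m ^ (α / (1 + α)) := ⟨_, rfl⟩
  obtain ⟨ℓ, hℓ⟩ : ∃ ℓ : ℝ, ℓ = Real.logb 2 ((A.vars.card : ℝ) + 2) := ⟨_, rfl⟩
  have hm0 : 0 ≤ m := by rw [hm]; exact Nat.cast_nonneg _
  have hy0 : 0 ≤ y := by rw [hy]; exact Real.rpow_nonneg hm0 _
  rw [← hm, ← hy, ← hℓ]
  have hlog : ((Nat.log 2 (A.vars.card + 2) : ℕ) : ℝ) ≤ ℓ := by
    rw [hℓ, Real.le_logb_iff_rpow_le (by norm_num) (by positivity), Real.rpow_natCast]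
    have := Nat.pow_log_le_self 2 (show A.vars.card + 2 ≠ 0 by omega)
    exact_mod_cast this
  have hℓ0 : 0 ≤ ℓ := le_trans (Nat.cast_nonneg _) hlog
  obtain ⟨s, hs⟩ : ∃ s, s = psize (A :: L) := ⟨_, rfl⟩
  have hs1 : (1 : ℝ) ≤ s := by
    have : 1 ≤ s := by
      rw [hs, psize_cons]
      have := size_pos A
      omega
    exact_mod_cast this
  -- the set that is deleted
  obtain ⟨T, d, hT, hd, hdK, hk⟩ : ∃ (T : Finset ℕ) (d : ℕ), T ⊆ keys E ∧ Dec (dfn E) T d ∧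
      (d : ℝ) ≤ K0 * (c * y) ∧ ((keys E \ T).card : ℝ) ≤ P * (c * y ^ 2) := by
    rcases Nat.eq_zero_or_pos (keys E).card with h0 | h0
    · have he : keys E = ∅ := Finset.card_eq_zero.1 h0
      refine ⟨∅, 0, Finset.empty_subset _, Dec.empty 0, ?_, ?_⟩
      · push_cast
        positivity
      · rw [he]
        simp only [Finset.sdiff_self, Finset.card_empty, Nat.cast_zero]
        positivity
    · have hm1 : 1 ≤ m := by rw [hm]; exact_mod_cast h0
      have hmp : 0 < m := by linarith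
      obtain ⟨r, hr⟩ : ∃ r : ℝ, r = m ^ (1 / (1 + α)) := ⟨_, rfl⟩
      have hr1 : 1 ≤ r := by rw [hr]; exact Real.one_le_rpow hm1 (by positivity)
      have hr0 : 0 < r := by linarith
      obtain ⟨S, hS, hSc, hSd⟩ := hsep.division hα hα1 (by linarith) r hr1 _ rfl
        (keys E).card (keys E) (Finset.Subset.refl _) rfl
      refine ⟨keys E \ S, _, Finset.sdiff_subset, hSd, ?_, ?_⟩
      · have h5 : r ^ α = y := by
          rw [hr, hy, ← Real.rpow_mul hm0]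
          congr 1
          field_simp
        refine (Nat.floor_le (by
          have : 0 ≤ c / (1 - (2 / 3) ^ α) := div_nonneg (by linarith) (by linarith)
          positivity)).trans (le_of_eq ?_)
        rw [h5, hK0]
        ring
      · rw [Finset.sdiff_sdiff_eq_self hS]
        refine hSc.trans ?_
        rw [← hm]
        have h6 : r ^ (α - 1) * m = y ^ 2 := by
          rw [hr, hy, ← Real.rpow_mul hm0, ← Real.rpow_add_one hmp.ne', ← Real.rpow_natCast,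
            ← Real.rpow_mul hm0]
          congr 1
          push_cast
          have : (1 + α) ≠ 0 := by linarith
          field_simp
          ring
        have h7 : (2 * r / 3) ^ (α - 1) = (2 / 3) ^ (α - 1) * r ^ (α - 1) := by
          rw [← Real.mul_rpow (by norm_num) hr0.le]
          congr 1; ring
        have h8 : 0 ≤ c / ((2 / 3) ^ (α - 1) - 1) * (max m (2 * r / 3)) ^ (α - 1) :=
          mul_nonneg (div_nonneg (by linarith) (by linarith))
            (Real.rpow_nonneg (le_trans hm0 (le_max_left _ _)) _)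
        calc m * (c / ((2 / 3) ^ (α - 1) - 1) * (2 * r / 3) ^ (α - 1) -
              c / ((2 / 3) ^ (α - 1) - 1) * (max m (2 * r / 3)) ^ (α - 1))
            ≤ m * (c / ((2 / 3) ^ (α - 1) - 1) * (2 * r / 3) ^ (α - 1)) := by
              refine mul_le_mul_of_nonneg_left ?_ hm0
              linarith
          _ = P * (c * (r ^ (α - 1) * m)) := by rw [h7, hP]; ring
          _ = P * (c * y ^ 2) := by rw [h6]
  obtain ⟨L', g1, g2⟩ := h1 A E L h T b d hb hT hd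
  refine ⟨L', g1, ?_⟩
  rw [← hs] at g2 ⊢
  obtain ⟨x, hx⟩ : ∃ x, x = Nat.sqrt ((keys E \ T).card * Nat.log 2 (A.vars.card + 2)) := ⟨_, rfl⟩
  rw [← hx] at g2
  have hxb : (x : ℝ) ≤ N * (c * y * √ℓ) := by
    have h5 : (x : ℝ) ≤ √(((keys E \ T).card : ℝ) * (Nat.log 2 (A.vars.card + 2) : ℕ)) := by
      rw [hx]
      have := Real.nat_sqrt_le_real_sqrt (a := (keys E \ T).card * Nat.log 2 (A.vars.card + 2))
      push_cast at this ⊢
      exact this
    have h6 : √(((keys E \ T).card : ℝ) * (Nat.log 2 (A.vars.card + 2) : ℕ)) ≤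
        √((P * (c * y) * (P * (c * y))) * ℓ) := by
      apply Real.sqrt_le_sqrt
      refine mul_le_mul ?_ hlog (Nat.cast_nonneg _) (by positivity)
      refine hk.trans ?_
      have hPc : 1 ≤ P * c := by nlinarith
      calc P * (c * y ^ 2) = (P * c) * y ^ 2 := by ring
        _ ≤ (P * c) * (P * c) * y ^ 2 := by
            refine mul_le_mul_of_nonneg_right ?_ (sq_nonneg _)
            nlinarith
        _ = P * (c * y) * (P * (c * y)) := by ring
    have h7 : √((P * (c * y) * (P * (c * y))) * ℓ) = P * (c * y) * √ℓ := by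
      rw [Real.sqrt_mul (by positivity), Real.sqrt_mul_self (by positivity)]
    rw [h7] at h6
    refine h5.trans (h6.trans ?_)
    calc P * (c * y) * √ℓ ≤ N * (c * y) * √ℓ := by
          refine mul_le_mul_of_nonneg_right ?_ (Real.sqrt_nonneg _)
          exact mul_le_mul_of_nonneg_right hNP (by positivity)
      _ = _ := by ring
  have g3 : (psize (A :: L') : ℝ) ≤ (((s : ℝ) * ((b : ℝ) + 2) ^ (d + 1)) * 2 ^ x) ^ C1 := by
    have : psize (A :: L') ≤ ((s * (b + 2) ^ (d + 1)) * 2 ^ x) ^ C1 := by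
      refine g2.trans (le_of_eq ?_)
      rw [mul_pow _ (2 ^ x), ← pow_mul, mul_comm x]
    exact_mod_cast this
  have hb2 : (1 : ℝ) ≤ (b : ℝ) + 2 := by
    have : (0 : ℝ) ≤ b := Nat.cast_nonneg _
    linarith
  have v1 : (s : ℝ) ≤ (s : ℝ) ^ N := le_self_pow₀ hs1 (by
    rintro rfl; simp at hN1; linarith)
  have v2 : ((b : ℝ) + 2) ^ (d + 1) ≤ (((b : ℝ) + 2) ^ (1 + c * y)) ^ N := by
    rw [← Real.rpow_natCast, ← Real.rpow_natCast, ← Real.rpow_mul (by linarith)]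
    refine Real.rpow_le_rpow_of_exponent_le hb2 ?_
    push_cast
    have h5 : K0 * (c * y) ≤ N * (c * y) := mul_le_mul_of_nonneg_right hNK (by positivity)
    nlinarith
  have v3 : (2 : ℝ) ^ x ≤ (2 ^ (c * y * √ℓ)) ^ N := by
    rw [← Real.rpow_natCast, ← Real.rpow_natCast, ← Real.rpow_mul (by norm_num)]
    refine Real.rpow_le_rpow_of_exponent_le (by norm_num) ?_
    linarith
  calc (psize (A :: L') : ℝ) ≤ (((s : ℝ) * ((b : ℝ) + 2) ^ (d + 1)) * 2 ^ x) ^ C1 := g3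
    _ ≤ (((s : ℝ) ^ N * (((b : ℝ) + 2) ^ (1 + c * y)) ^ N) * (2 ^ (c * y * √ℓ)) ^ N) ^ C1 := by
        gcongr
    _ = ((s : ℝ) * ((b : ℝ) + 2) ^ (1 + c * y) * 2 ^ (c * y * √ℓ)) ^ (N * C1) := by
        rw [← mul_pow, ← mul_pow, ← pow_mul]

end Pool.Agent.TH677.PM
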