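import Pool.Agent.TH677.PM.Elim

/-! # Partial elimination: the theorem -/

set_option autoImplicit false

namespace Pool.Agent.TH677.PM

open Pool.Agent.H555R2.PF Pool.Agent.H555R2.PF.Fm Pool.Agent.TH677.EF

variable {F : List Rule}

theorem Fr_of_Ca {G : List Fm} {m : ℕ} (h : Ca F ∅ G m) :
    ∃ D, Fr F D ∧ (∀ B ∈ G, B ∈ D) ∧ psize D ≤ m := by
  obtain ⟨D, h1, h2, h3⟩ := h [] Fr.nil (by simp)
  rw [List.append_nil] at h1 h2
  exact ⟨D, h1, h2, h3⟩

theorem arith {s B M0 W c c1 c3 : ℕ} (h1 : 1 ≤ B) (hM0 : M0 ≤ W) :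
    s * (2 * (3 * (B * M0)) + 5) + (s * (c * B ^ 3 * W) +
      s * (4 * (s * (c * B ^ 3 * W)) + (s + 1) * (c1 * (B * (B * M0))))) +
      s * (c3 * (3 * (B * M0))) + s * M0 ≤
      (s + 1) ^ 2 * ((20 + 5 * c + 2 * c1 + 3 * c3) * (B ^ 3 * (W + 1))) := by
  have e1 : B * M0 ≤ B ^ 3 * (W + 1) := by
    calc B * M0 ≤ B * (W + 1) := by gcongr; omega
      _ = B ^ 1 * (W + 1) := by ring
      _ ≤ B ^ 3 * (W + 1) := by gcongr <;> omega
  have e2 : B * (B * M0) ≤ B ^ 3 * (W + 1) := by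
    calc B * (B * M0) ≤ B * (B * (W + 1)) := by gcongr; omega
      _ = B ^ 2 * (W + 1) := by ring
      _ ≤ B ^ 3 * (W + 1) := by gcongr <;> omega
  have e3 : M0 ≤ B ^ 3 * (W + 1) := by
    calc M0 ≤ B * M0 := Nat.le_mul_of_pos_left _ h1
      _ ≤ _ := e1
  have e4 : 1 ≤ B ^ 3 * (W + 1) := Nat.mul_pos (Nat.pow_pos h1) (Nat.succ_pos W)
  have e5 : c * B ^ 3 * W ≤ c * (B ^ 3 * (W + 1)) := by
    rw [mul_assoc]
    gcongr
    omega
  obtain ⟨V, hV⟩ : ∃ V, V = B ^ 3 * (W + 1) := ⟨_, rfl⟩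
  rw [← hV] at e1 e2 e3 e4 e5 ⊢
  calc s * (2 * (3 * (B * M0)) + 5) + (s * (c * B ^ 3 * W) +
      s * (4 * (s * (c * B ^ 3 * W)) + (s + 1) * (c1 * (B * (B * M0))))) +
      s * (c3 * (3 * (B * M0))) + s * M0
      ≤ s * (2 * (3 * V) + 5 * V) + (s * (c * V) + s * (4 * (s * (c * V)) + (s + 1) * (c1 * V))) +
        s * (c3 * (3 * V)) + s * V := by
        gcongr
        omega
    _ = (12 * s + s * c + 4 * s ^ 2 * c + s * (s + 1) * c1 + 3 * s * c3) * V := by ring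
    _ ≤ ((s + 1) ^ 2 * (20 + 5 * c + 2 * c1 + 3 * c3)) * V := by
        gcongr
        nlinarith [Nat.zero_le (s * c), Nat.zero_le (s ^ 2 * c), Nat.zero_le (s * c1),
          Nat.zero_le (s ^ 2 * c1), Nat.zero_le (s * c3), Nat.zero_le (s ^ 2 * c3), Nat.zero_le c,
          Nat.zero_le c1, Nat.zero_le c3, Nat.zero_le s, Nat.zero_le (s ^ 2)]
    _ = _ := by ring

/-- **Partial elimination.** -/
theorem elim (hF : IsFrege F) : ∃ C : ℕ, ∀ (A : Fm) (E : List (ℕ × Fm)) (L : List Fm),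
    EFP F A E (A :: L) → ∀ (T : Finset ℕ) (b d : ℕ), (∀ p ∈ E, p.2.size ≤ b) → T ⊆ keys E →
    Dec (dfn E) T d →
    ∃ (k : ℕ) (L' : List Fm), k ≤ (keys E \ T).card ∧ EFProof F A k (A :: L') ∧
      psize (A :: L') ≤ psize (A :: L) ^ 2 * (C * (b + 1)) ^ (d + 3) := by
  classical
  obtain ⟨c, hc⟩ := solve hF
  obtain ⟨c1, h1⟩ := one_key hF
  obtain ⟨c3, h3⟩ := ef_trans hF
  refine ⟨160 * (8 * (20 + 5 * c + 2 * c1 + 3 * c3)), fun A E L h T b d hb hT hd => ?_⟩
  have hw := h.wfe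
  have hφ : ∀ u ∈ keys E, (dfn E u).size ≤ b + 1 := fun u hu =>
    (dfn_size hw hb u hu).trans (Nat.le_succ _)
  obtain ⟨G, g1, g2, g3⟩ := hc (dfn E) (rnk E) (keys E) (b + 1) (by omega) hφ (rnk_lt hw) T d hd hT
  obtain ⟨x, hx⟩ := vars_nonempty A
  have hxk : x ∉ keys E := fun h => key_notMem hw h hx
  obtain ⟨B, hB⟩ : ∃ B, B = b + 1 := ⟨_, rfl⟩
  rw [← hB] at hφ g2 g3 ⊢
  have hB1 : 1 ≤ B := by omega
  obtain ⟨M0, hM0⟩ : ∃ M0, M0 = (20 * B) ^ d := ⟨_, rfl⟩
  rw [← hM0] at g2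
  have hM1 : 1 ≤ M0 := by rw [hM0]; exact Nat.one_le_pow _ _ (by omega)
  obtain ⟨S, hS⟩ : ∃ S, S = keys E \ T := ⟨_, rfl⟩
  set χ : ℕ → Fm := fun s => (dfn E s).subst fun n => (G n).subst (kill x S (rnk E) (rnk E s))
    with hχ
  set Y : ℕ → Fm := fun s => (dfn E s).subst G with hY
  have hxS : x ∉ S := fun h => hxk (by rw [hS] at h; exact (Finset.mem_sdiff.1 h).1)
  have sχ : ∀ s ∈ keys E, (χ s).size ≤ 3 * (B * M0) := by
    intro s hs
    have k1 : ∀ n, ((G n).subst (kill x S (rnk E) (rnk E s))).size ≤ M0 * 3 := fun n =>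
      subst_size (by norm_num) (g2 n) fun n => kill_size _ _ _ _ _
    have := subst_size (A := dfn E s) (b := B) (M := M0 * 3) (by omega) (hφ s hs) k1
    simp only [hχ]
    calc _ ≤ B * (M0 * 3) := this
      _ = 3 * (B * M0) := by ring
  have sY : ∀ s ∈ keys E, (Y s).size ≤ 3 * (B * M0) := by
    intro s hs
    have := subst_size (A := dfn E s) (b := B) (M := M0) hM1 (hφ s hs) g2
    simp only [hY]
    omega
  -- the new extension axioms
  have p1 : EFProof F A (keys E \ T).card (extl T χ E) := by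
    refine ef_extl hw ?_
    intro u hu huT v hv hvT huv hmem
    simp only [hχ] at hmem
    obtain ⟨n, -, h5⟩ := mem_vars_subst hmem
    obtain ⟨m, -, h6⟩ := mem_vars_subst h5
    exact kill_vars hxS h6 ⟨by rw [hS]; exact Finset.mem_sdiff.2 ⟨hv, hvT⟩, huv⟩
  rw [← hS] at p1 ⊢
  -- the Frege proofs
  have q1 : Ca F ∅ (S.toList.map fun s => imp (imp (var s) (var s)) (iff (Y s) (χ s)))
      (S.toList.length * (4 * (T.card * (c * B ^ 3 * (160 * B) ^ d)) +
        (T.card + 1) * (c1 * (B * (B * M0))))) := by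
    refine Ca.many (fun s => imp (imp (var s) (var s)) (iff (Y s) (χ s))) _ _ ?_
    intro s hs
    rw [Finset.mem_toList, hS, Finset.mem_sdiff] at hs
    have := h1 (dfn E) (rnk E) (keys E) T x B M0 _ s G hB1 hM1 hφ (rnk_lt hw) hT hs.1 hs.2 g1 g2 g3
    rw [← hS] at this
    exact this
  obtain ⟨D, d1, d2, d3⟩ := Fr_of_Ca (g3.append q1)
  have p2 := ef_append p1 d1
  obtain ⟨D', p3, p4, p5⟩ := h3 A S.card χ Y (3 * (B * M0)) (by
      have := Nat.mul_pos hB1 hM1; omega) S.toList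
    (fun s hs => sχ s (by
      rw [Finset.mem_toList, hS] at hs; exact (Finset.mem_sdiff.1 hs).1))
    (fun s hs => sY s (by
      rw [Finset.mem_toList, hS] at hs; exact (Finset.mem_sdiff.1 hs).1)) _ p2 (by
    intro s hs
    have hs' := hs
    rw [Finset.mem_toList, hS, Finset.mem_sdiff] at hs'
    exact ⟨List.mem_append_right _ (mem_extl s hs'.1 hs'.2),
      List.mem_append_left _ (d2 _ (List.mem_append_right _ (List.mem_map.2 ⟨s, hs, rfl⟩)))⟩)
  obtain ⟨D'', p6, p7, p8⟩ := ef_sim h hM1 g2 p3 (by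
    intro p hp
    have hk : p.1 ∈ keys E := mem_keys.2 ⟨p.2, hp⟩
    have hdf := dfn_mem hw p hp
    by_cases hpT : p.1 ∈ T
    · apply List.mem_append_right
      apply List.mem_append_left
      refine d2 _ (List.mem_append_left _ (List.mem_map.2 ⟨p.1, Finset.mem_toList.2 hpT, ?_⟩))
      rw [eqn, hdf]
    · have := p4 p.1 (by rw [Finset.mem_toList, hS]; exact Finset.mem_sdiff.2 ⟨hk, hpT⟩)
      rw [g1 _ hpT]
      simp only [hY, hdf] at this
      exact this)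
  have hA : A.subst G = A := by
    rw [subst_congr (τ := var) (fun n hn => g1 n fun hnT => key_notMem hw (hT hnT) hn), subst_var]
  have p9 := p7 A (by simp)
  rw [hA] at p9
  obtain ⟨D1, D2, hD⟩ := List.append_of_mem p9
  rw [hD] at p6
  obtain ⟨k, k1, k2⟩ := ef_suffix p6
  refine ⟨k, D2, k1, k2, ?_⟩
  have z0 : psize (A :: D2) ≤ psize (D'' ++ (D' ++ (D ++ extl T χ E))) := by
    rw [hD, psize_append]; omega
  rw [psize_append, psize_append, psize_append] at z0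
  have z1 := psize_extl (T := T) sχ
  obtain ⟨s, hs⟩ : ∃ s, s = psize (A :: L) := ⟨_, rfl⟩
  rw [← hs] at p8 ⊢
  have z2 : E.length ≤ s := by rw [hs]; exact h.length_le.trans (length_le_psize _)
  have z3 : (keys E).card ≤ s := by
    refine (List.toFinset_card_le _).trans ?_
    rw [List.length_map]
    exact z2
  have z4 : T.card ≤ s := (Finset.card_le_card hT).trans z3
  have z5 : S.card ≤ s := by
    rw [hS]; exact (Finset.card_le_card Finset.sdiff_subset).trans z3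
  rw [Finset.length_toList] at p5 d3
  have z6 : 1 ≤ s := by
    rw [hs, psize_cons]
    have := size_pos A
    omega
  have hW : M0 ≤ (160 * B) ^ d := by rw [hM0]; exact Nat.pow_le_pow_left (by omega) _
  have z7 : psize (A :: D2) ≤ (s + 1) ^ 2 *
      ((20 + 5 * c + 2 * c1 + 3 * c3) * (B ^ 3 * ((160 * B) ^ d + 1))) := by
    refine le_trans ?_ (arith (s := s) (c := c) (c1 := c1) (c3 := c3) hB1 hW)
    calc psize (A :: D2) ≤ psize D'' + (psize D' + (psize D + psize (extl T χ E))) := z0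
      _ ≤ s * M0 + (s * (c3 * (3 * (B * M0))) +
          ((s * (c * B ^ 3 * (160 * B) ^ d) +
            s * (4 * (s * (c * B ^ 3 * (160 * B) ^ d)) + (s + 1) * (c1 * (B * (B * M0))))) +
          s * (2 * (3 * (B * M0)) + 5))) := by
          refine Nat.add_le_add p8 (Nat.add_le_add (p5.trans (Nat.mul_le_mul_right _ z5))
            (Nat.add_le_add (d3.trans ?_) (z1.trans (Nat.mul_le_mul_right _ z2))))
          gcongr
      _ = _ := by ring
  refine z7.trans ?_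
  obtain ⟨K, hK⟩ : ∃ K, K = 20 + 5 * c + 2 * c1 + 3 * c3 := ⟨_, rfl⟩
  rw [← hK]
  have w1 : (s + 1) ^ 2 ≤ s ^ 2 * 4 := by nlinarith
  have w2 : (160 * B) ^ d + 1 ≤ 2 * (160 * B) ^ d := by
    have : 1 ≤ (160 * B) ^ d := Nat.one_le_pow _ _ (by omega)
    omega
  have hK1 : 1 ≤ K := by omega
  calc (s + 1) ^ 2 * (K * (B ^ 3 * ((160 * B) ^ d + 1)))
      ≤ (s ^ 2 * 4) * (K * (B ^ 3 * (2 * (160 * B) ^ d))) := by gcongr
    _ = s ^ 2 * ((8 * K) * B ^ 3 * (160 * B) ^ d) := by ring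
    _ ≤ s ^ 2 * ((160 * (8 * K) * B) ^ 3 * (160 * (8 * K) * B) ^ d) := by
        gcongr
        · calc 8 * K * B ^ 3 ≤ (160 * (8 * K)) ^ 3 * B ^ 3 := by
                gcongr
                calc 8 * K ≤ 160 * (8 * K) := by omega
                  _ ≤ (160 * (8 * K)) ^ 3 := Nat.le_self_pow (by norm_num) _
            _ = _ := by ring
        · nlinarith
    _ = s ^ 2 * (160 * (8 * K) * B) ^ (d + 3) := by rw [pow_add]; ring

end Pool.Agent.TH677.PM
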